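import Pool.Agent.N613.ET.Complete

namespace Pool.Agent.N613.Shelf.ThreeActive

open Pool.Agent.N613.ET

/-- Every ET0L language is generated by an ET0L system in which every table rewrites at most three
letters. So all levels of the hierarchy from the third on coincide (with each other and with the
family of all ET0L languages), and the collapse threshold is at most three. -/
theorem result :
    (∀ (α : Type) (G : Sys α), lang G ∈ Fam 3 α) ∧
    (∀ k : ℕ, 3 ≤ k → ∀ α : Type, Fam k α = Fam (k + 1) α) ∧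
    (∀ l : ℕ, IsLeast {l : ℕ | 1 ≤ l ∧ ∀ k : ℕ, l ≤ k → ∀ α : Type, Fam k α = Fam (k + 1) α} l →
      l ≤ 3) := by
  have h1 : ∀ (α : Type) (G : Sys α), lang G ∈ Fam 3 α := fun α G =>
    ⟨sim G, sim_restr G, sim_lang G⟩
  have hmono : ∀ k m : ℕ, k ≤ m → ∀ α : Type, Fam k α ⊆ Fam m α := by
    rintro k m hkm α L ⟨G, hG, rfl⟩
    exact ⟨G, fun h => (hG h).trans (by exact_mod_cast hkm), rfl⟩
  have h2 : ∀ k : ℕ, 3 ≤ k → ∀ α : Type, Fam k α = Fam (k + 1) α := by
    intro k hk α
    refine Set.Subset.antisymm (hmono k (k + 1) (Nat.le_succ k) α) ?_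
    rintro L ⟨G, _, rfl⟩
    exact hmono 3 k hk α (h1 α G)
  exact ⟨h1, h2, fun l hl => hl.2 ⟨by norm_num, h2⟩⟩

end Pool.Agent.N613.Shelf.ThreeActive
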